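import Pool.Agent.Helper14.TK7.StD

/-!
# Levels `3·7^n`, module SOL: parametrisation of the solutions of the relations
-/

set_option autoImplicit false

namespace Pool.Agent.Helper79.TK7

open Pool.Agent.Helper14.TK7 Pool.Agent.Helper84.S7

private abbrev Pt (r s : ℕ) : Type := ZMod (7 ^ r) × ZMod (7 ^ s)

private def mu {r s : ℕ} (a b c d : ℤ) (p : Pt r s) : Pt r s :=
  tr7 a b c d (fun x y => ((x, y) : Pt r s)) p.1 p.2

private theorem mu_mul (hTrm : S7Trm) {r s : ℕ} {a b c d a' b' c' d' : ℤ} (h1 : ¬ 7 ∣ a)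
    (h2 : ¬ 7 ∣ d) (h3 : ¬ 7 ∣ a') (h4 : ¬ 7 ∣ d') (p : Pt r s) :
    mu a' b' c' d' (mu a b c d p) =
      mu (a * a' + 7 * b * c') (a * b' + b * d') (c * a' + d * c') (7 * c * b' + d * d') p := by
  have h := congrFun (congrFun ((hTrm (Pt r s) r s (fun x y => (x, y))).1 a b c d a' b' c' d'
    h1 h2 h3 h4) p.1) p.2
  exact h

private theorem mu_one (hTrm : S7Trm) {r s : ℕ} (p : Pt r s) : mu 1 0 0 1 p = p :=
  congrFun (congrFun (hTrm (Pt r s) r s (fun x y => (x, y))).2.1 p.1) p.2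

private theorem mu_scl (hTrm : S7Trm) {r s : ℕ} (k a b c d : ℤ) (hk : ¬ 7 ∣ k) (ha : ¬ 7 ∣ a)
    (hd : ¬ 7 ∣ d) (p : Pt r s) : mu (k * a) (k * b) (k * c) (k * d) p = mu a b c d p :=
  congrFun (congrFun ((hTrm (Pt r s) r s (fun x y => (x, y))).2.2 k a b c d hk ha hd) p.1) p.2

private theorem mu_sc (hTrm : S7Trm) {r s : ℕ} (k : ℤ) (hk : ¬ 7 ∣ k) (p : Pt r s) :
    mu k 0 0 k p = p := by
  have h := mu_scl hTrm k 1 0 0 1 hk (by norm_num) (by norm_num) p
  rw [mul_one, mul_zero] at h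
  rw [h, mu_one hTrm]

private def mT {r s : ℕ} : Pt r s → Pt r s := mu 1 1 0 1
private def mb {r s : ℕ} : Pt r s → Pt r s := mu 9 (-4) 3 (-9)
private def ma {r s : ℕ} : Pt r s → Pt r s := mu 12 (-7) 3 (-12)
private def mr {r s : ℕ} : Pt r s → Pt r s := mu 6 (-1) 3 (-3)
private def mt {r s : ℕ} : Pt r s → Pt r s := mu 18 (-13) 3 (-15)

private theorem b2 (hm : S7Trm) {r s : ℕ} (p : Pt r s) : mb (mb p) = p := by
  unfold mb
  rw [mu_mul hm (by norm_num) (by norm_num) (by norm_num) (by norm_num)]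
  norm_num
  exact mu_sc hm (-3) (by norm_num) p

private theorem a2 (hm : S7Trm) {r s : ℕ} (p : Pt r s) : ma (ma p) = p := by
  unfold ma
  rw [mu_mul hm (by norm_num) (by norm_num) (by norm_num) (by norm_num)]
  norm_num
  exact mu_sc hm (-3) (by norm_num) p

private theorem r2 (hm : S7Trm) {r s : ℕ} (p : Pt r s) : mr (mr p) = mu 5 (-1) 3 (-4) p := by
  have h := mu_scl hm 3 5 (-1) 3 (-4) (by norm_num) (by norm_num) (by norm_num) p
  unfold mr
  rw [mu_mul hm (by norm_num) (by norm_num) (by norm_num) (by norm_num), ← h]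
  norm_num

private theorem r3 (hm : S7Trm) {r s : ℕ} (p : Pt r s) : mr (mr (mr p)) = mu 9 (-2) 6 (-9) p := by
  rw [r2 hm (mr p)]
  unfold mr
  have h := mu_scl hm 1 9 (-2) 6 (-9) (by norm_num) (by norm_num) (by norm_num) p
  rw [mu_mul hm (by norm_num) (by norm_num) (by norm_num) (by norm_num), ← h]
  norm_num

private theorem r4 (hm : S7Trm) {r s : ℕ} (p : Pt r s) : mr (mr (mr (mr p))) = mu 4 (-1) 3 (-5) p := by
  rw [r3 hm (mr p)]
  unfold mr
  have h := mu_scl hm 3 4 (-1) 3 (-5) (by norm_num) (by norm_num) (by norm_num) p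
  rw [mu_mul hm (by norm_num) (by norm_num) (by norm_num) (by norm_num), ← h]
  norm_num

private theorem r5 (hm : S7Trm) {r s : ℕ} (p : Pt r s) : mr (mr (mr (mr (mr p)))) = mu 3 (-1) 3 (-6) p := by
  rw [r4 hm (mr p)]
  unfold mr
  have h := mu_scl hm 1 3 (-1) 3 (-6) (by norm_num) (by norm_num) (by norm_num) p
  rw [mu_mul hm (by norm_num) (by norm_num) (by norm_num) (by norm_num), ← h]
  norm_num

private theorem r6 (hm : S7Trm) {r s : ℕ} (p : Pt r s) : mr (mr (mr (mr (mr (mr p))))) = p := by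
  rw [r5 hm (mr p)]
  unfold mr
  have h := mu_sc hm (r := r) (s := s) (-3) (by norm_num) p
  rw [mu_mul hm (by norm_num) (by norm_num) (by norm_num) (by norm_num)]
  norm_num
  exact h

private theorem t2 (hm : S7Trm) {r s : ℕ} (p : Pt r s) : mt (mt p) = mu 17 (-13) 3 (-16) p := by
  have h := mu_scl hm 3 17 (-13) 3 (-16) (by norm_num) (by norm_num) (by norm_num) p
  unfold mt
  rw [mu_mul hm (by norm_num) (by norm_num) (by norm_num) (by norm_num), ← h]
  norm_num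

private theorem t3 (hm : S7Trm) {r s : ℕ} (p : Pt r s) : mt (mt (mt p)) = mu 33 (-26) 6 (-33) p := by
  rw [t2 hm (mt p)]
  unfold mt
  have h := mu_scl hm 1 33 (-26) 6 (-33) (by norm_num) (by norm_num) (by norm_num) p
  rw [mu_mul hm (by norm_num) (by norm_num) (by norm_num) (by norm_num), ← h]
  norm_num

private theorem t4 (hm : S7Trm) {r s : ℕ} (p : Pt r s) : mt (mt (mt (mt p))) = mu 16 (-13) 3 (-17) p := by
  rw [t3 hm (mt p)]
  unfold mt
  have h := mu_scl hm 3 16 (-13) 3 (-17) (by norm_num) (by norm_num) (by norm_num) p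
  rw [mu_mul hm (by norm_num) (by norm_num) (by norm_num) (by norm_num), ← h]
  norm_num

private theorem t5 (hm : S7Trm) {r s : ℕ} (p : Pt r s) : mt (mt (mt (mt (mt p)))) = mu 15 (-13) 3 (-18) p := by
  rw [t4 hm (mt p)]
  unfold mt
  have h := mu_scl hm 1 15 (-13) 3 (-18) (by norm_num) (by norm_num) (by norm_num) p
  rw [mu_mul hm (by norm_num) (by norm_num) (by norm_num) (by norm_num), ← h]
  norm_num

private theorem t6 (hm : S7Trm) {r s : ℕ} (p : Pt r s) : mt (mt (mt (mt (mt (mt p))))) = p := by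
  rw [t5 hm (mt p)]
  unfold mt
  have h := mu_sc hm (r := r) (s := s) (-3) (by norm_num) p
  rw [mu_mul hm (by norm_num) (by norm_num) (by norm_num) (by norm_num)]
  norm_num
  exact h

section

variable {R : Type} [AddCommGroup R] {r s : ℕ}

/-- a function on points -/
private def fp (f : ZMod (7 ^ r) → ZMod (7 ^ s) → R) (p : Pt r s) : R := f p.1 p.2

private theorem nr_pts (hm : S7Trm) (f : ZMod (7 ^ r) → ZMod (7 ^ s) → R) (p : Pt r s) :
    nrK f p.1 p.2 = fp f p + fp f (mr p) + fp f (mr (mr p)) + fp f (mr (mr (mr p))) +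
      fp f (mr (mr (mr (mr p)))) + fp f (mr (mr (mr (mr (mr p))))) := by
  rw [r5 hm, r4 hm, r3 hm, r2 hm]
  rfl

private theorem nt_pts (hm : S7Trm) (f : ZMod (7 ^ r) → ZMod (7 ^ s) → R) (p : Pt r s) :
    ntK f p.1 p.2 = fp f p + fp f (mt p) + fp f (mt (mt p)) + fp f (mt (mt (mt p))) +
      fp f (mt (mt (mt (mt p)))) + fp f (mt (mt (mt (mt (mt p))))) := by
  rw [t5 hm, t4 hm, t3 hm, t2 hm]
  rfl

private theorem sol0 (u : Fin 5 → ZMod (7 ^ r) → ZMod (7 ^ s) → R) : solK u 0 = u 0 := by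
  funext x y
  exact if_pos rfl

private theorem sol1 (u : Fin 5 → ZMod (7 ^ r) → ZMod (7 ^ s) → R) (p : Pt r s) :
    solK u 1 p.1 p.2 = fp (u 1) p - fp (u 1) (mr p) := by
  unfold solK
  rw [if_neg (by decide), if_pos rfl, if_neg (by decide), add_zero, add_zero]
  rfl

private theorem sol2 (u : Fin 5 → ZMod (7 ^ r) → ZMod (7 ^ s) → R) (p : Pt r s) :
    solK u 2 p.1 p.2 = fp (u 1) p - fp (u 1) (mr p) + (fp (u 2) p - fp (u 2) (mb p)) := by
  unfold solK
  rw [if_neg (by decide), if_neg (by decide), if_neg (by decide), add_zero]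
  rfl

private theorem sol3 (u : Fin 5 → ZMod (7 ^ r) → ZMod (7 ^ s) → R) (p : Pt r s) :
    solK u 3 p.1 p.2 = fp (u 1) p - fp (u 1) (mr p) + (fp (u 2) p - fp (u 2) (mb p)) +
      (fp (u 3) p - fp (u 3) (ma p)) := by
  unfold solK
  rw [if_neg (by decide), if_neg (by decide), if_pos rfl]
  rfl

private theorem df_pts (u : Fin 5 → ZMod (7 ^ r) → ZMod (7 ^ s) → R) (p : Pt r s) :
    DfK u p.1 p.2 = fp (u 0) p - fp (u 0) (mT p) - (fp (u 1) p - fp (u 1) (mr p)) -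
      (fp (u 2) p - fp (u 2) (mb p)) - (fp (u 3) p - fp (u 3) (ma p)) -
      (fp (u 4) p - fp (u 4) (mt p)) := rfl

private theorem part1 (hm : S7Trm) (u : Fin 5 → ZMod (7 ^ r) → ZMod (7 ^ s) → R)
    (hu : ∀ x y, DfK u x y = 0) : RelK (solK u) := by
  refine ⟨?_, ?_, ?_, ?_⟩
  · intro x y
    have e : ∀ p : Pt r s, fp (solK u 1) p = fp (u 1) p - fp (u 1) (mr p) := fun p => sol1 u p
    have h := nr_pts hm (solK u 1) ((x, y) : Pt r s)
    refine h.trans ?_
    rw [e, e, e, e, e, e, r6 hm]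
    abel
  · intro x y
    have e1 := sol1 u ((x, y) : Pt r s)
    have e2 := sol2 u ((x, y) : Pt r s)
    have e3 := sol1 u (mb ((x, y) : Pt r s))
    have e4 := sol2 u (mb ((x, y) : Pt r s))
    rw [b2 hm] at e4
    have g1 : tr7 9 (-4) 3 (-9) (solK u 2) x y =
        solK u 2 (mb ((x, y) : Pt r s)).1 (mb ((x, y) : Pt r s)).2 := rfl
    have g2 : tr7 9 (-4) 3 (-9) (solK u 1) x y =
        solK u 1 (mb ((x, y) : Pt r s)).1 (mb ((x, y) : Pt r s)).2 := rfl
    rw [g1, g2, e3, e4]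
    have e1' : solK u 1 x y = _ := e1
    have e2' : solK u 2 x y = _ := e2
    rw [e1', e2']
    abel
  · intro x y
    have e1 := sol2 u ((x, y) : Pt r s)
    have e2 := sol3 u ((x, y) : Pt r s)
    have e3 := sol2 u (ma ((x, y) : Pt r s))
    have e4 := sol3 u (ma ((x, y) : Pt r s))
    rw [a2 hm] at e4
    have g1 : tr7 12 (-7) 3 (-12) (solK u 3) x y =
        solK u 3 (ma ((x, y) : Pt r s)).1 (ma ((x, y) : Pt r s)).2 := rfl
    have g2 : tr7 12 (-7) 3 (-12) (solK u 2) x y =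
        solK u 2 (ma ((x, y) : Pt r s)).1 (ma ((x, y) : Pt r s)).2 := rfl
    rw [g1, g2, e3, e4]
    have e1' : solK u 2 x y = _ := e1
    have e2' : solK u 3 x y = _ := e2
    rw [e1', e2']
    abel
  · intro x y
    have e : ∀ p : Pt r s, fp (kK (solK u)) p = fp (u 4) p - fp (u 4) (mt p) := by
      intro p
      have h1 : fp (kK (solK u)) p = solK u 0 p.1 p.2 - solK u 0 (mT p).1 (mT p).2 -
        solK u 3 p.1 p.2 := rfl
      have h2 := df_pts u p
      rw [hu] at h2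
      rw [h1, sol3, sol0]
      have h3 : u 0 p.1 p.2 = fp (u 0) p := rfl
      have h4 : u 0 (mT p).1 (mT p).2 = fp (u 0) (mT p) := rfl
      rw [h3, h4]
      have h5 : fp (u 0) p - fp (u 0) (mT p) - (fp (u 1) p - fp (u 1) (mr p) +
          (fp (u 2) p - fp (u 2) (mb p)) + (fp (u 3) p - fp (u 3) (ma p))) -
          (fp (u 4) p - fp (u 4) (mt p)) = 0 := by
        rw [h2]
        abel
      exact sub_eq_zero.1 h5
    have h := nt_pts hm (kK (solK u)) ((x, y) : Pt r s)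
    refine h.trans ?_
    rw [e, e, e, e, e, e, t6 hm]
    abel

end

/-- `∑_{i<6} i f∘ρ^i` -/
private def wr {r s : ℕ} (ρ : Pt r s → Pt r s) (f : Pt r s → ZMod 7) (p : Pt r s) : ZMod 7 :=
  f (ρ p) + 2 * f (ρ (ρ p)) + 3 * f (ρ (ρ (ρ p))) + 4 * f (ρ (ρ (ρ (ρ p)))) +
    5 * f (ρ (ρ (ρ (ρ (ρ p)))))

private theorem wr_sub {r s : ℕ} (ρ : Pt r s → Pt r s) (f : Pt r s → ZMod 7)
    (h6 : ∀ p, ρ (ρ (ρ (ρ (ρ (ρ p))))) = p)
    (h : ∀ p, f p + f (ρ p) + f (ρ (ρ p)) + f (ρ (ρ (ρ p))) + f (ρ (ρ (ρ (ρ p)))) +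
      f (ρ (ρ (ρ (ρ (ρ p))))) = 0) (p : Pt r s) : wr ρ f p - wr ρ f (ρ p) = f p := by
  unfold wr
  rw [h6]
  have h1 := h p
  have h7 : (7 : ZMod 7) = 0 := rfl
  linear_combination h1 - f p * h7

private theorem part2 (hm : S7Trm) (r s : ℕ) (F : Fin 4 → Fn7 (7 ^ r) (7 ^ s)) (hF : RelK F) :
    ∃ u : Fin 5 → Fn7 (7 ^ r) (7 ^ s), (∀ x y, DfK u x y = 0) ∧ ∀ i, solK u i = F i := by
  obtain ⟨e1, e2, e3, e4⟩ := hF
  have h7 : (7 : ZMod 7) = 0 := rfl
  let U1 : Pt r s → ZMod 7 := wr mr (fp (F 1))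
  let U2 : Pt r s → ZMod 7 := fun p => 4 * (fp (F 2) p - fp (F 1) p)
  let U3 : Pt r s → ZMod 7 := fun p => 4 * (fp (F 3) p - fp (F 2) p)
  let U4 : Pt r s → ZMod 7 := wr mt (fp (kK F))
  have k1 : ∀ p, U1 p - U1 (mr p) = fp (F 1) p := wr_sub mr (fp (F 1)) (r6 hm) (fun p => by
    rw [← nr_pts hm]
    exact e1 p.1 p.2)
  have k4 : ∀ p, U4 p - U4 (mt p) = fp (kK F) p := wr_sub mt (fp (kK F)) (t6 hm) (fun p => by
    rw [← nt_pts hm]
    exact e4 p.1 p.2)
  have k2 : ∀ p, U2 p - U2 (mb p) = fp (F 2) p - fp (F 1) p := by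
    intro p
    have h : fp (F 2) p - fp (F 1) p + (fp (F 2) (mb p) - fp (F 1) (mb p)) = 0 := e2 p.1 p.2
    show 4 * (fp (F 2) p - fp (F 1) p) - 4 * (fp (F 2) (mb p) - fp (F 1) (mb p)) = _
    linear_combination (-4 : ZMod 7) * h + (fp (F 2) p - fp (F 1) p) * h7
  have k3 : ∀ p, U3 p - U3 (ma p) = fp (F 3) p - fp (F 2) p := by
    intro p
    have h : fp (F 3) p - fp (F 2) p + (fp (F 3) (ma p) - fp (F 2) (ma p)) = 0 := e3 p.1 p.2
    show 4 * (fp (F 3) p - fp (F 2) p) - 4 * (fp (F 3) (ma p) - fp (F 2) (ma p)) = _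
    linear_combination (-4 : ZMod 7) * h + (fp (F 3) p - fp (F 2) p) * h7
  refine ⟨![F 0, fun x y => U1 (x, y), fun x y => U2 (x, y), fun x y => U3 (x, y),
    fun x y => U4 (x, y)], ?_, ?_⟩
  · intro x y
    have l1 := k1 (x, y)
    have l2 := k2 (x, y)
    have l3 := k3 (x, y)
    have l4 := k4 (x, y)
    have l5 : fp (kK F) ((x, y) : Pt r s) = fp (F 0) (x, y) - fp (F 0) (mT (x, y)) - fp (F 3) (x, y) := rfl
    show fp (F 0) ((x, y) : Pt r s) - fp (F 0) (mT (x, y)) - (U1 (x, y) - U1 (mr (x, y))) -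
      (U2 (x, y) - U2 (mb (x, y))) - (U3 (x, y) - U3 (ma (x, y))) - (U4 (x, y) - U4 (mt (x, y))) = 0
    rw [l1, l2, l3, l4, l5]
    ring
  · intro i
    fin_cases i
    · exact sol0 _
    · funext x y
      have h := sol1 (![F 0, fun x y => U1 (x, y), fun x y => U2 (x, y), fun x y => U3 (x, y),
        fun x y => U4 (x, y)] : Fin 5 → Fn7 (7 ^ r) (7 ^ s)) ((x, y) : Pt r s)
      exact h.trans (k1 (x, y))
    · funext x y
      have h := sol2 (![F 0, fun x y => U1 (x, y), fun x y => U2 (x, y), fun x y => U3 (x, y),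
        fun x y => U4 (x, y)] : Fin 5 → Fn7 (7 ^ r) (7 ^ s)) ((x, y) : Pt r s)
      refine h.trans ?_
      show U1 (x, y) - U1 (mr (x, y)) + (U2 (x, y) - U2 (mb (x, y))) = fp (F 2) (x, y)
      rw [k1, k2]
      ring
    · funext x y
      have h := sol3 (![F 0, fun x y => U1 (x, y), fun x y => U2 (x, y), fun x y => U3 (x, y),
        fun x y => U4 (x, y)] : Fin 5 → Fn7 (7 ^ r) (7 ^ s)) ((x, y) : Pt r s)
      refine h.trans ?_
      show U1 (x, y) - U1 (mr (x, y)) + (U2 (x, y) - U2 (mb (x, y))) +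
        (U3 (x, y) - U3 (ma (x, y))) = fp (F 3) (x, y)
      rw [k1, k2, k3]
      ring

/-- **Module SOL.** -/
theorem hSol (ht : S7Trm) : TSol :=
  ⟨fun _ _ _ _ u hu => part1 ht u hu, fun r s F hF => part2 ht r s F hF⟩

end Pool.Agent.Helper79.TK7
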